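import Pool.Agent.Helper57.SI.Stmts

/-!
# Row UP: four directions, two powers
-/

set_option autoImplicit false

namespace Pool.Agent.Helper6.SI

open MeasureTheory Set Filter Topology
open Pool.Agent.Helper57.QZ (Pr tor circ aa Zy Wy Sy Vy Ky Fy pt lin)
open Pool.Agent.Helper57.SI

/-- `P` holds at all points outside a small exceptional set -/
def Ev (κ : ℝ) (P : ℝ → Prop) : Prop := ∃ T₀ : ℝ, 0 < T₀ ∧ ∀ T : ℝ, T₀ ≤ T →
  ∃ E : Set ℝ, E ⊆ Icc T (2 * T) ∧ volume.real E ≤ κ * T ∧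
  ∀ u ∈ Icc T (2 * T), u ∉ E → P u

theorem Ev.and {κ₁ κ₂ : ℝ} {P₁ P₂ : ℝ → Prop} (h1 : Ev κ₁ P₁) (h2 : Ev κ₂ P₂) :
    Ev (κ₁ + κ₂) (fun u => P₁ u ∧ P₂ u) := by
  obtain ⟨T1, hT1, h1⟩ := h1
  obtain ⟨T2, hT2, h2⟩ := h2
  refine ⟨max T1 T2, lt_max_of_lt_left hT1, fun T hT => ?_⟩
  obtain ⟨E1, hE1, hm1, hp1⟩ := h1 T ((le_max_left _ _).trans hT)
  obtain ⟨E2, hE2, hm2, hp2⟩ := h2 T ((le_max_right _ _).trans hT)
  refine ⟨E1 ∪ E2, union_subset hE1 hE2, ?_, fun u hu hue => ?_⟩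
  · have := measureReal_union_le (μ := volume) E1 E2
    linarith [add_mul κ₁ κ₂ T]
  · exact ⟨hp1 u hu (fun h => hue (Or.inl h)), hp2 u hu (fun h => hue (Or.inr h))⟩

theorem Ev.mono {κ κ' : ℝ} {P P' : ℝ → Prop} (h : Ev κ P) (hk : κ ≤ κ')
    (hP : ∀ u, P u → P' u) : Ev κ' P' := by
  obtain ⟨T1, hT1, h1⟩ := h
  refine ⟨T1, hT1, fun T hT => ?_⟩
  obtain ⟨E, hE, hm, hp⟩ := h1 T hT
  exact ⟨E, hE, hm.trans (mul_le_mul_of_nonneg_right hk (hT1.le.trans hT)),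
    fun u hu hue => hP u (hp u hu hue)⟩

theorem norm_le_of_dirs {z : ℂ} {η : ℝ}
    (h0 : (Complex.exp (-(((0 : ℝ) : ℂ) * Complex.I)) * z).re ≤ η / 2)
    (h1 : (Complex.exp (-(((Real.pi / 2 : ℝ) : ℂ) * Complex.I)) * z).re ≤ η / 2)
    (h2 : (Complex.exp (-(((Real.pi : ℝ) : ℂ) * Complex.I)) * z).re ≤ η / 2)
    (h3 : (Complex.exp (-(((-(Real.pi / 2) : ℝ) : ℂ) * Complex.I)) * z).re ≤ η / 2) :
    ‖z‖ ≤ η := by
  have e1 : Complex.exp (-(((Real.pi / 2 : ℝ) : ℂ) * Complex.I)) = -Complex.I := by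
    rw [Complex.exp_neg]
    push_cast
    rw [Complex.exp_pi_div_two_mul_I, Complex.inv_I]
  have e2 : Complex.exp (-(((Real.pi : ℝ) : ℂ) * Complex.I)) = -1 := by
    rw [Complex.exp_neg, Complex.exp_pi_mul_I]
    norm_num
  have e3 : Complex.exp (-(((-(Real.pi / 2) : ℝ) : ℂ) * Complex.I)) = Complex.I := by
    have : (-(((-(Real.pi / 2) : ℝ) : ℂ) * Complex.I)) = ((Real.pi : ℂ) / 2) * Complex.I := by
      push_cast; ring
    rw [this, Complex.exp_pi_div_two_mul_I]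
  rw [e1] at h1
  rw [e2] at h2
  rw [e3] at h3
  simp at h0 h1 h2 h3
  have hn := Complex.norm_le_abs_re_add_abs_im z
  have ha : |z.re| ≤ η / 2 := abs_le.2 ⟨by linarith, h0⟩
  have hb : |z.im| ≤ η / 2 := abs_le.2 ⟨by linarith, h1⟩
  linarith

theorem st_UP (hUPD : ST_UPD) : ST_UP := by
  intro η hη κ hκ
  obtain ⟨Ha, ha⟩ := hUPD η hη (κ / 8) (by positivity) 0 (by norm_num)
  obtain ⟨Hb, hb⟩ := hUPD η hη (κ / 8) (by positivity) 1 le_rfl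
  refine ⟨max Ha Hb, fun H hH y => ?_⟩
  have hH1 : Ha ≤ H := (le_max_left _ _).trans hH
  have hH2 : Hb ≤ H := (le_max_right _ _).trans hH
  have A : ∀ β : ℝ, Ev (κ / 8) (fun u => ∀ t ∈ Icc u (u + H),
      (Complex.exp (-((β : ℂ) * Complex.I)) * tl 0 y (ZZ η H) (lin y t)).re ≤ η / 2) :=
    fun β => ha H hH1 y β
  have B : ∀ β : ℝ, Ev (κ / 8) (fun u => ∀ t ∈ Icc u (u + H),
      (Complex.exp (-((β : ℂ) * Complex.I)) * tl 1 y (ZZ η H) (lin y t)).re ≤ η / 2) :=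
    fun β => hb H hH2 y β
  have C := (((A 0).and (A (Real.pi / 2))).and ((A Real.pi).and (A (-(Real.pi / 2))))).and
    (((B 0).and (B (Real.pi / 2))).and ((B Real.pi).and (B (-(Real.pi / 2)))))
  exact C.mono (κ' := κ) (by linarith) (fun u hu t ht =>
    ⟨norm_le_of_dirs (hu.1.1.1 t ht) (hu.1.1.2 t ht) (hu.1.2.1 t ht) (hu.1.2.2 t ht),
      norm_le_of_dirs (hu.2.1.1 t ht) (hu.2.1.2 t ht) (hu.2.2.1 t ht) (hu.2.2.2 t ht)⟩)

end Pool.Agent.Helper6.SI
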